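import Mathlib

set_option autoImplicit false

/-!
# The banded module of the second 2-dependent 3-colouring: states and transitions

The module has the basis `r, E_k = F_(2k), O_k = F_(2k+1), G_k = tau F_(2k+1)` (`k >= 0`), where
`F_0 = 2 f_0`.  A state is a linear functional on it, given by its values on the basis.
`A` is composition with the operator `a`, `T` is composition with the mirror `tau`.
-/

namespace Pool.Agent.W817.E1

/-- Names of the basis vectors. -/
inductive Ix : Type
  | r : Ix
  | E (k : ℕ) : Ix
  | O (k : ℕ) : Ix
  | G (k : ℕ) : Ix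

/-- A state: a functional on the module. -/
abbrev St : Type := Ix → ℝ

/-- `psi ↦ psi ∘ a`. -/
noncomputable def A (s : St) : St
  | .r => s .r + s (.E 0) / 2
  | .E 0 => s (.E 0) + s (.O 0)
  | .E (k + 1) => (s (.O (k + 1)) - s (.O k)) / 2
  | .O k => (s (.E (k + 1)) - s (.E k)) / 2
  | .G 0 => - s (.G 0) - s .r
  | .G (k + 1) => (-1) ^ k * s (.G (k + 1))

/-- `psi ↦ psi ∘ tau`. -/
noncomputable def T (s : St) : St
  | .r => s .r
  | .E 0 => 2 * s .r - s (.E 0)
  | .E (k + 1) => (-1) ^ k * s (.E (k + 1))
  | .O k => s (.G k)
  | .G k => s (.O k)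

/-- Reading one step letter. -/
noncomputable def step (s : St) (c : Bool) : St := if c then A (T s) else T (A s)

/-- The vacuum state. -/
noncomputable def vac : St
  | .r => 36
  | .E 0 => 36
  | .E 1 => 4
  | .E (_ + 2) => 0
  | .O 0 => -13
  | .O 1 => -1
  | .O (_ + 2) => 0
  | .G 0 => -13
  | .G 1 => -1
  | .G (_ + 2) => 0

/-- Reading a word of steps, starting from `s`. -/
noncomputable def run (s : St) (w : List Bool) : St := w.foldl step s

/-- The statement still to be proved: all word weights are nonnegative. -/
def Positive : Prop := ∀ w : List Bool, 0 ≤ run vac w .r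

end Pool.Agent.W817.E1
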