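import Mathlib
import Pool.Agent.W817.E1.Def

set_option autoImplicit false

/-!
# Algebra of the banded module
-/

namespace Pool.Agent.W817.E1

theorem A_add (s t : St) : A (s + t) = A s + A t := by
  funext i
  rcases i with _ | k | k | k
  · simp [A]; ring
  · cases k with
    | zero => simp [A]; ring
    | succ k => simp [A]; ring
  · simp [A]; ring
  · cases k with
    | zero => simp [A]; ring
    | succ k => simp [A]; ring

theorem A_smul (c : ℝ) (s : St) : A (c • s) = c • A s := by
  funext i
  rcases i with _ | k | k | k
  · simp [A]; ring
  · cases k with
    | zero => simp [A]; ring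
    | succ k => simp [A]; ring
  · simp [A]; ring
  · cases k with
    | zero => simp [A]; ring
    | succ k => simp [A]; ring

theorem T_add (s t : St) : T (s + t) = T s + T t := by
  funext i
  rcases i with _ | k | k | k
  · simp [T]
  · cases k with
    | zero => simp [T]; ring
    | succ k => simp [T]; ring
  · simp [T]
  · simp [T]

theorem T_smul (c : ℝ) (s : St) : T (c • s) = c • T s := by
  funext i
  rcases i with _ | k | k | k
  · simp [T]
  · cases k with
    | zero => simp [T]; ring
    | succ k => simp [T]; ring
  · simp [T]
  · simp [T]

theorem step_add (s t : St) (c : Bool) : step (s + t) c = step s c + step t c := by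
  unfold step
  split_ifs
  · rw [T_add, A_add]
  · rw [A_add, T_add]

theorem step_smul (x : ℝ) (s : St) (c : Bool) : step (x • s) c = x • step s c := by
  unfold step
  split_ifs
  · rw [T_smul, A_smul]
  · rw [A_smul, T_smul]

theorem run_add (w : List Bool) : ∀ s t : St, run (s + t) w = run s w + run t w := by
  induction w with
  | nil => intro s t; rfl
  | cons c w ih =>
    intro s t
    show run (step (s + t) c) w = run (step s c) w + run (step t c) w
    rw [step_add, ih]

theorem run_smul (x : ℝ) (w : List Bool) : ∀ s : St, run (x • s) w = x • run s w := by
  induction w with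
  | nil => intro s; rfl
  | cons c w ih =>
    intro s
    show run (step (x • s) c) w = x • run (step s c) w
    rw [step_smul, ih]

theorem vac_left : step vac false + step vac true = (3 : ℝ) • vac := by
  funext i
  rcases i with _ | k | k | k
  · simp [step, A, T, vac]; norm_num
  · rcases k with _ | _ | _ | k
    · simp [step, A, T, vac]; norm_num
    · simp [step, A, T, vac]; norm_num
    · simp [step, A, T, vac]
    · simp [step, A, T, vac]
  · rcases k with _ | _ | _ | k
    · simp [step, A, T, vac]; norm_num
    · simp [step, A, T, vac]; norm_num
    · simp [step, A, T, vac]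
    · simp [step, A, T, vac]
  · rcases k with _ | _ | _ | k
    · simp [step, A, T, vac]; norm_num
    · simp [step, A, T, vac]; norm_num
    · simp [step, A, T, vac]
    · simp [step, A, T, vac]

theorem right_eq (s : St) : step s false .r + step s true .r = 3 * s .r := by
  simp [step, A, T]; ring

theorem E_zero (s : St) : step (step (step s false) false) false +
    step (step (step s true) true) true = (s .r / 4) • vac := by
  funext i
  rcases i with _ | k | k | k
  · simp [step, A, T, vac]; ring
  · rcases k with _ | _ | _ | _ | k
    · simp [step, A, T, vac]; ring
    · simp [step, A, T, vac]; ring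
    · simp [step, A, T, vac]; ring
    · simp [step, A, T, vac]; ring
    · rcases neg_one_pow_eq_or ℝ k with h | h <;> simp [step, A, T, vac, pow_succ, h] <;> ring
  · rcases k with _ | _ | _ | _ | k
    · simp [step, A, T, vac]; ring
    · simp [step, A, T, vac]; ring
    · simp [step, A, T, vac]; ring
    · simp [step, A, T, vac]; ring
    · rcases neg_one_pow_eq_or ℝ k with h | h <;> simp [step, A, T, vac, pow_succ, h] <;> ring
  · rcases k with _ | _ | _ | _ | k
    · simp [step, A, T, vac]; ring
    · simp [step, A, T, vac]; ring
    · simp [step, A, T, vac]; ring
    · simp [step, A, T, vac]; ring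
    · rcases neg_one_pow_eq_or ℝ k with h | h <;> simp [step, A, T, vac, pow_succ, h] <;> ring

theorem E_one (s : St) : step (step (step s false) false) true +
    step (step (step s false) true) false + step (step (step s true) false) false =
      (s .r / 4) • vac := by
  funext i
  rcases i with _ | k | k | k
  · simp [step, A, T, vac]; ring
  · rcases k with _ | _ | _ | _ | k
    · simp [step, A, T, vac]; ring
    · simp [step, A, T, vac]; ring
    · simp [step, A, T, vac]; ring
    · simp [step, A, T, vac]; ring
    · rcases neg_one_pow_eq_or ℝ k with h | h <;> simp [step, A, T, vac, pow_succ, h] <;> ring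
  · rcases k with _ | _ | _ | _ | k
    · simp [step, A, T, vac]; ring
    · simp [step, A, T, vac]; ring
    · simp [step, A, T, vac]; ring
    · simp [step, A, T, vac]; ring
    · rcases neg_one_pow_eq_or ℝ k with h | h <;> simp [step, A, T, vac, pow_succ, h] <;> ring
  · rcases k with _ | _ | _ | _ | k
    · simp [step, A, T, vac]; ring
    · simp [step, A, T, vac]; ring
    · simp [step, A, T, vac]; ring
    · simp [step, A, T, vac]; ring
    · rcases neg_one_pow_eq_or ℝ k with h | h <;> simp [step, A, T, vac, pow_succ, h] <;> ring

theorem E_two (s : St) : step (step (step s true) true) false +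
    step (step (step s true) false) true + step (step (step s false) true) true =
      (s .r / 4) • vac := by
  funext i
  rcases i with _ | k | k | k
  · simp [step, A, T, vac]; ring
  · rcases k with _ | _ | _ | _ | k
    · simp [step, A, T, vac]; ring
    · simp [step, A, T, vac]; ring
    · simp [step, A, T, vac]; ring
    · simp [step, A, T, vac]; ring
    · rcases neg_one_pow_eq_or ℝ k with h | h <;> simp [step, A, T, vac, pow_succ, h] <;> ring
  · rcases k with _ | _ | _ | _ | k
    · simp [step, A, T, vac]; ring
    · simp [step, A, T, vac]; ring
    · simp [step, A, T, vac]; ring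
    · simp [step, A, T, vac]; ring
    · rcases neg_one_pow_eq_or ℝ k with h | h <;> simp [step, A, T, vac, pow_succ, h] <;> ring
  · rcases k with _ | _ | _ | _ | k
    · simp [step, A, T, vac]; ring
    · simp [step, A, T, vac]; ring
    · simp [step, A, T, vac]; ring
    · simp [step, A, T, vac]; ring
    · rcases neg_one_pow_eq_or ℝ k with h | h <;> simp [step, A, T, vac, pow_succ, h] <;> ring

end Pool.Agent.W817.E1
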