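import Mathlib
import Pool.Agent.W817.E1.Alg
import Pool.Agent.H588R3.BR.Theta4

set_option autoImplicit false

/-!
# From positivity of the word weights to two different colourings
-/

namespace Pool.Agent.W817.E1

open Pool.Agent.H588R3 Pool.Agent.H588R3.TC MeasureTheory ProbabilityTheory

/-- The step between two colours: `false` for `+1`, `true` for `-1`. -/
def sgn (a b : Fin 3) : Bool := if b = a + 1 then false else true

/-- The weight of a colour word after the colour `a` in the state `s`. -/
noncomputable def val : St → Fin 3 → List (Fin 3) → ℝ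
  | s, _, [] => s .r
  | s, a, b :: l => if b = a then 0 else val (step s (sgn a b)) b l / 3

/-- The word probabilities of the second colouring. -/
noncomputable def P : List (Fin 3) → ℝ
  | [] => 1
  | a :: l => val vac a l / 108

theorem val_add (l : List (Fin 3)) : ∀ (s t : St) (a : Fin 3),
    val (s + t) a l = val s a l + val t a l := by
  induction l with
  | nil => intro s t a; rfl
  | cons b l ih =>
    intro s t a
    simp only [val]
    split_ifs
    · ring
    · rw [step_add, ih]; ring

theorem val_smul (x : ℝ) (l : List (Fin 3)) : ∀ (s : St) (a : Fin 3),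
    val (x • s) a l = x * val s a l := by
  induction l with
  | nil => intro s a; rfl
  | cons b l ih =>
    intro s a
    simp only [val]
    split_ifs
    · ring
    · rw [step_smul, ih]; ring

theorem run_snoc (s : St) (u : List Bool) (c : Bool) : run s (u ++ [c]) = step (run s u) c := by
  unfold run
  rw [List.foldl_append]
  rfl

theorem val_nonneg (h : Positive) (l : List (Fin 3)) : ∀ (u : List Bool) (a : Fin 3),
    0 ≤ val (run vac u) a l := by
  induction l with
  | nil => intro u a; exact h u
  | cons b l ih =>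
    intro u a
    simp only [val]
    split_ifs
    · exact le_rfl
    · rw [← run_snoc]
      exact div_nonneg (ih _ _) (by norm_num)

theorem P_nonneg (h : Positive) (w : List (Fin 3)) : 0 ≤ P w := by
  cases w with
  | nil => exact zero_le_one
  | cons a l => exact div_nonneg (val_nonneg h l [] a) (by norm_num)

theorem val_improper (l : List (Fin 3)) : ∀ (s : St) (a : Fin 3), ¬ Proper (a :: l) →
    val s a l = 0 := by
  induction l with
  | nil => intro s a h; exact absurd (by simp [Proper]) h
  | cons b l ih =>
    intro s a h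
    simp only [val]
    split_ifs with hb
    · rfl
    · rw [ih, zero_div]
      intro h'
      apply h
      unfold Proper at h' ⊢
      rw [List.isChain_cons_cons]
      exact ⟨fun e => hb e.symm, h'⟩

theorem P_improper (w : List (Fin 3)) (h : ¬ Proper w) : P w = 0 := by
  cases w with
  | nil => exact absurd (by simp [Proper]) h
  | cons a l =>
    show val vac a l / 108 = 0
    rw [val_improper l vac a h, zero_div]

theorem P_left (w : List (Fin 3)) : ∑ a, P (a :: w) = P w := by
  cases w with
  | nil =>
    simp only [P, val, vac]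
    norm_num
  | cons b l =>
    have h : val (step vac false) b l + val (step vac true) b l = 3 * val vac b l := by
      rw [← val_add, vac_left, val_smul]
    rw [Fin.sum_univ_three]
    simp only [P, val]
    fin_cases b <;> simp [sgn] <;> simp at h <;> linarith

theorem val_right (l : List (Fin 3)) : ∀ (s : St) (b : Fin 3),
    ∑ a, val s b (l ++ [a]) = val s b l := by
  induction l with
  | nil =>
    intro s b
    have h := right_eq s
    simp only [List.nil_append, val]
    rw [Fin.sum_univ_three]
    fin_cases b <;> simp [sgn] <;> linarith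
  | cons c l ih =>
    intro s b
    simp only [List.cons_append, val]
    split_ifs with hc
    · simp
    · rw [← Finset.sum_div, ih]

theorem P_right (w : List (Fin 3)) : ∑ a, P (w ++ [a]) = P w := by
  cases w with
  | nil => exact P_left []
  | cons b l =>
    simp only [List.cons_append, P]
    rw [← Finset.sum_div, val_right]

theorem mid_base (s : St) (c d : Fin 3) (m : List (Fin 3)) :
    ∑ a, ∑ b, val s c (a :: b :: d :: m) = s .r * (val vac d m / 108) := by
  have h0 := congrArg (fun t => val t d m) (E_zero s)
  have h1 := congrArg (fun t => val t d m) (E_one s)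
  have h2 := congrArg (fun t => val t d m) (E_two s)
  simp only [val_add, val_smul] at h0 h1 h2
  simp only [Fin.sum_univ_three, val]
  fin_cases c <;> fin_cases d <;> simp [sgn] <;> simp at h0 h1 h2 <;> linarith

theorem val_mid (x : List (Fin 3)) : ∀ (s : St) (c d : Fin 3) (m : List (Fin 3)),
    ∑ a, ∑ b, val s c (x ++ a :: b :: d :: m) = val s c x * (val vac d m / 108) := by
  induction x with
  | nil => intro s c d m; exact mid_base s c d m
  | cons e x ih =>
    intro s c d m
    simp only [List.cons_append, val]
    split_ifs with he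
    · simp
    · have := ih (step s (sgn c e)) e d m
      simp only [← Finset.sum_div]
      rw [this]
      ring

theorem P_mid (x y : List (Fin 3)) : ∑ a, ∑ b, P (x ++ a :: b :: y) = P x * P y := by
  cases x with
  | nil =>
    rw [Finset.sum_comm]
    have : ∀ b : Fin 3, ∑ a, P ([] ++ a :: b :: y) = P (b :: y) := fun b => P_left (b :: y)
    simp only [this]
    rw [P_left]
    simp [P]
  | cons c x =>
    cases y with
    | nil =>
      have h1 : ∀ a : Fin 3, ∑ b, P ((c :: x) ++ a :: b :: []) = P ((c :: x) ++ [a]) := by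
        intro a
        have := P_right ((c :: x) ++ [a])
        rw [← this]
        apply Finset.sum_congr rfl
        intro b _
        congr 1
        simp
      simp only [h1]
      rw [P_right]
      simp [P]
    | cons d m =>
      have := val_mid x vac c d m
      simp only [List.cons_append, P]
      simp only [← Finset.sum_div]
      rw [this]
      ring

theorem P_wlaw (h : Positive) : WLaw P :=
  ⟨P_nonneg h, rfl, P_improper, P_left, P_right, P_mid⟩

theorem P_val : P [0, 1, 0] = 131 / 1944 := by
  simp [P, val, sgn, step, A, T, vac]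
  norm_num

theorem hl_val : hl [0, 1, 0] = 1 / 15 := by
  have h1 : ∀ a : Fin 3, hl [a] = 1 / 3 := by
    intro a
    have h := hl_rec (w := [a]) (by simp) (by simp [Proper])
    simp only [sdel, List.length_cons, List.length_nil, hl_nil] at h
    norm_num at h
    linarith
  have h2 : ∀ a b : Fin 3, a ≠ b → hl [a, b] = 1 / 6 := by
    intro a b hab
    have h := hl_rec (w := [a, b]) (by simp) (by simp [Proper, hab])
    simp only [sdel, List.length_cons, List.length_nil, h1] at h
    norm_num at h
    linarith
  have h3 : hl [0, 0] = 0 := hl_improper (by simp [Proper])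
  have h := hl_rec (w := [0, 1, 0]) (by simp) (by simp [Proper])
  simp only [sdel, List.length_cons, List.length_nil] at h
  rw [h2 1 0 (by decide), h2 0 1 (by decide), h3] at h
  norm_num at h
  linarith

/-- The word law of the second colouring. -/
noncomputable def eW (h : Positive) : WSpace := ⟨P, P_wlaw h⟩

theorem eW_ne (h : Positive) : eW h ≠ hlW := by
  intro e
  have e1 : P [0, 1, 0] = hl [0, 1, 0] := congrFun (congrArg Subtype.val e) [0, 1, 0]
  rw [P_val, hl_val] at e1
  norm_num at e1

theorem not_unique3 (h : Positive) :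
    ¬ (∀ μ ν : Measure (ℤ → Fin 3),
    IsProbabilityMeasure μ → IsProbabilityMeasure ν →
    μ.map (fun (x : ℤ → Fin 3) (n : ℤ) => x (n + 1)) = μ →
    ν.map (fun (x : ℤ → Fin 3) (n : ℤ) => x (n + 1)) = ν →
    (∀ᵐ x ∂μ, ∀ n : ℤ, x n ≠ x (n + 1)) →
    (∀ᵐ x ∂ν, ∀ n : ℤ, x n ≠ x (n + 1)) →
    (∀ A B : Set ℤ, (∀ a ∈ A, ∀ b ∈ B, (2 : ℤ) < |a - b|) →
      IndepFun (fun (x : ℤ → Fin 3) (a : A) => x a)
        (fun (x : ℤ → Fin 3) (b : B) => x b) μ) →
    (∀ A B : Set ℤ, (∀ a ∈ A, ∀ b ∈ B, (2 : ℤ) < |a - b|) →
      IndepFun (fun (x : ℤ → Fin 3) (a : A) => x a)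
        (fun (x : ℤ → Fin 3) (b : B) => x b) ν) →
    μ = ν) := by
  intro H
  have h1 : IsColoringLaw (toPM (eW h) : Measure (ℤ → Fin 3)) := toPM_law (eW h)
  have h2 : IsColoringLaw (toPM hlW : Measure (ℤ → Fin 3)) := toPM_law hlW
  have e := H _ _ h1.prob h2.prob h1.stationary h2.stationary h1.coloring h2.coloring
    h1.dependence h2.dependence
  apply eW_ne h
  have e1 : toPM (eW h) = toPM hlW := Subtype.ext e
  apply Subtype.ext
  rw [← wp_toPM (eW h), ← wp_toPM hlW, e1]

theorem not_unique4 (h : Positive) :
    ¬ (∀ μ ν : Measure (ℤ → Fin 4),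
      IsProbabilityMeasure μ → IsProbabilityMeasure ν →
      Measure.map (fun x : ℤ → Fin 4 => fun n : ℤ => x (n + 1)) μ = μ →
      Measure.map (fun x : ℤ → Fin 4 => fun n : ℤ => x (n + 1)) ν = ν →
      (∀ᵐ x ∂μ, ∀ n : ℤ, x n ≠ x (n + 1)) →
      (∀ᵐ x ∂ν, ∀ n : ℤ, x n ≠ x (n + 1)) →
      (∀ A B : Set ℤ, (∀ a ∈ A, ∀ b ∈ B, 1 < |a - b|) →
        Indep (⨆ a ∈ A, MeasurableSpace.comap (fun x : ℤ → Fin 4 => x a) (⊤ : MeasurableSpace (Fin 4)))
          (⨆ b ∈ B, MeasurableSpace.comap (fun x : ℤ → Fin 4 => x b) (⊤ : MeasurableSpace (Fin 4))) μ) →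
      (∀ A B : Set ℤ, (∀ a ∈ A, ∀ b ∈ B, 1 < |a - b|) →
        Indep (⨆ a ∈ A, MeasurableSpace.comap (fun x : ℤ → Fin 4 => x a) (⊤ : MeasurableSpace (Fin 4)))
          (⨆ b ∈ B, MeasurableSpace.comap (fun x : ℤ → Fin 4 => x b) (⊤ : MeasurableSpace (Fin 4))) ν) →
      μ = ν) := by
  intro H
  have h1 : FC.IsColoringLaw ((BR.thetaW 0 (eW h)).1 : Measure (ℤ → Fin 4)) :=
    (BR.thetaW 0 (eW h)).2
  have h2 : FC.IsColoringLaw ((BR.thetaW 0 hlW).1 : Measure (ℤ → Fin 4)) :=
    (BR.thetaW 0 hlW).2
  have e := H _ _ h1.prob h2.prob h1.stationary h2.stationary h1.coloring h2.coloring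
    h1.dependence h2.dependence
  apply eW_ne h
  have e1 : BR.thetaW 0 (eW h) = BR.thetaW 0 hlW := Subtype.ext (Subtype.ext e)
  rw [← BR.psi_theta 0 (eW h), ← BR.psi_theta 0 hlW, e1]

end Pool.Agent.W817.E1
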